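import Mathlib

/-!
# Odd closed walks get shorter by at least two at each level
-/

set_option autoImplicit false

namespace Pool.Agent.H91.RO

/-- number of changes of a sequence of signs among the first `n` steps -/
noncomputable def chg (d : ℕ → Bool) : ℕ → ℕ
  | 0 => 0
  | n + 1 => chg d n + (if d n = d (n + 1) then 0 else 1)

theorem chg_parity (d : ℕ → Bool) (n : ℕ) : Even (chg d n) ↔ d 0 = d n := by
  induction n with
  | zero => simp [chg]
  | succ n ih =>
    rw [chg]
    rcases Bool.eq_or_eq_not (d n) (d (n + 1)) with h | h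
    · rw [if_pos h, add_zero, ih, h]
    · have hne : d n ≠ d (n + 1) := by
        rw [h]; cases d (n + 1) <;> simp
      rw [if_neg hne, Nat.even_add_one, ih, h]
      cases d 0 <;> cases d (n + 1) <;> simp

theorem chg_zero {d : ℕ → Bool} {n : ℕ} (h : chg d n = 0) : ∀ i < n, d i = d (i + 1) := by
  induction n with
  | zero => intro i hi; omega
  | succ n ih =>
    rw [chg] at h
    intro i hi
    by_cases hn : d n = d (n + 1)
    · rcases Nat.lt_succ_iff_lt_or_eq.1 hi with h1 | h1
      · exact ih (by omega) i h1
      · rw [h1]; exact hn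
    · rw [if_neg hn] at h
      omega

/-- dropping the lazy steps -/
theorem compress {V : Type*} (Adj : V → V → Prop) (d : ℕ → Bool) (z : ℕ → V)
    (h : ∀ i, (d i = d (i + 1) ∧ Adj (z i) (z (i + 1))) ∨ (d i ≠ d (i + 1) ∧ z i = z (i + 1)))
    (n : ℕ) : ∃ (m : ℕ) (z' : ℕ → V), m + chg d n = n ∧ z' 0 = z 0 ∧ z' m = z n ∧
      ∀ i < m, Adj (z' i) (z' (i + 1)) := by
  induction n with
  | zero => exact ⟨0, z, rfl, rfl, rfl, fun i hi => by omega⟩
  | succ n ih =>
    obtain ⟨m, z', h1, h2, h3, h4⟩ := ih
    rcases h n with ⟨ha, hb⟩ | ⟨ha, hb⟩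
    · refine ⟨m + 1, fun i => if i ≤ m then z' i else z (n + 1), ?_, ?_, ?_, ?_⟩
      · rw [chg, if_pos ha]; omega
      · show (if 0 ≤ m then z' 0 else z (n + 1)) = z 0
        rw [if_pos (Nat.zero_le m), h2]
      · show (if m + 1 ≤ m then z' (m + 1) else z (n + 1)) = z (n + 1)
        rw [if_neg (by omega)]
      · intro i hi
        show Adj (if i ≤ m then z' i else z (n + 1)) (if i + 1 ≤ m then z' (i + 1) else z (n + 1))
        rw [if_pos (by omega)]
        rcases Nat.lt_succ_iff_lt_or_eq.1 hi with h5 | h5
        · rw [if_pos (by omega)]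
          exact h4 i h5
        · rw [if_neg (by omega), h5, h3]
          exact hb
    · refine ⟨m, z', ?_, h2, ?_, h4⟩
      · rw [chg, if_neg ha]; omega
      · rw [h3, hb]

theorem odd_step {V V' : Type*} (R : V → V → Prop) (R' : V' → V' → Prop) (par usr : V' → V)
    (rk : V → ℕ) (hR : ∀ a b, R a b → rk a < rk b)
    (h1 : ∀ s t, R' s t → par t = usr s ∧ R (par s) (usr s)) {l : ℕ} (w : ℕ → V')
    (hw : ∀ i < l, R' (w i) (w (i + 1)) ∨ R' (w (i + 1)) (w i)) (hcl : w l = w 0) (hodd : Odd l) :
    ∃ (l' : ℕ) (z : ℕ → V), l' + 2 ≤ l ∧ Odd l' ∧ z l' = z 0 ∧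
      ∀ i < l', R (z i) (z (i + 1)) ∨ R (z (i + 1)) (z i) := by
  classical
  have hl : 0 < l := hodd.pos
  -- the periodic extension
  set v : ℕ → V' := fun i => w (i % l) with hv
  have hper : ∀ i, v (i + l) = v i := by
    intro i
    show w ((i + l) % l) = w (i % l)
    rw [Nat.add_mod_right]
  have hstep : ∀ i, R' (v i) (v (i + 1)) ∨ R' (v (i + 1)) (v i) := by
    intro i
    have hi : i % l < l := Nat.mod_lt _ hl
    have h2 : v (i + 1) = w (i % l + 1) := by
      show w ((i + 1) % l) = w (i % l + 1)
      rcases Nat.lt_or_ge (i % l + 1) l with h3 | h3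
      · rw [Nat.add_mod, Nat.mod_eq_of_lt (show 1 < l by omega), Nat.mod_eq_of_lt h3]
      · have h4 : i % l + 1 = l := by omega
        rw [h4, hcl]
        congr 1
        have h5 : i + 1 = l * (i / l) + l := by
          have := Nat.div_add_mod i l
          omega
        rw [h5, Nat.add_mod_right, Nat.mul_mod_right]
    rw [h2]
    exact hw _ hi
  set d : ℕ → Bool := fun i => decide (R' (v i) (v (i + 1))) with hd
  have hdt : ∀ i, d i = true → R' (v i) (v (i + 1)) := fun i h => of_decide_eq_true h
  have hdf : ∀ i, d i = false → R' (v (i + 1)) (v i) := by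
    intro i h
    have h2 : ¬ R' (v i) (v (i + 1)) := of_decide_eq_false h
    exact (hstep i).resolve_left h2
  have hdper : ∀ i, d (i + l) = d i := by
    intro i
    show decide (R' (v (i + l)) (v (i + l + 1))) = decide (R' (v i) (v (i + 1)))
    rw [hper i, show i + l + 1 = (i + 1) + l by omega, hper (i + 1)]
  set z : ℕ → V := fun i => if d i = true then usr (v i) else par (v i) with hz
  have hz1 : ∀ i, z i = if d i = true then par (v (i + 1)) else usr (v (i + 1)) := by
    intro i
    show (if d i = true then usr (v i) else par (v i)) = _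
    by_cases h : d i = true
    · rw [if_pos h, if_pos h]
      exact (h1 _ _ (hdt i h)).1.symm
    · rw [if_neg h, if_neg h]
      exact (h1 _ _ (hdf i (by simpa using h))).1
  have hzper : z l = z 0 := by
    show (if d l = true then usr (v l) else par (v l)) = if d 0 = true then usr (v 0) else par (v 0)
    have e1 := hdper 0
    have e2 := hper 0
    rw [zero_add] at e1 e2
    rw [e1, e2]
  -- the four cases
  have hTT : ∀ i, d i = true → d (i + 1) = true → R (z i) (z (i + 1)) := by
    intro i ha hb
    have e1 := hz1 i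
    rw [if_pos ha] at e1
    have e2 : z (i + 1) = usr (v (i + 1)) := if_pos hb
    rw [e1, e2]
    exact (h1 _ _ (hdt (i + 1) hb)).2
  have hFF : ∀ i, d i = false → d (i + 1) = false → R (z (i + 1)) (z i) := by
    intro i ha hb
    have e1 := hz1 i
    rw [if_neg (by rw [ha]; simp)] at e1
    have e2 : z (i + 1) = par (v (i + 1)) := if_neg (by rw [hb]; simp)
    rw [e1, e2]
    exact (h1 _ _ (hdf i ha)).2
  have hmix : ∀ i, d i ≠ d (i + 1) → z i = z (i + 1) := by
    intro i hne
    have e1 := hz1 i
    cases ha : d i
    · have hb : d (i + 1) = true := by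
        cases hb : d (i + 1)
        · exact absurd (ha.trans hb.symm) hne
        · rfl
      rw [if_neg (by rw [ha]; simp)] at e1
      have e2 : z (i + 1) = usr (v (i + 1)) := if_pos hb
      rw [e1, e2]
    · have hb : d (i + 1) = false := by
        cases hb : d (i + 1)
        · rfl
        · exact absurd (ha.trans hb.symm) hne
      rw [if_pos ha] at e1
      have e2 : z (i + 1) = par (v (i + 1)) := if_neg (by rw [hb]; simp)
      rw [e1, e2]
  have hall : ∀ i, (d i = d (i + 1) ∧ (R (z i) (z (i + 1)) ∨ R (z (i + 1)) (z i))) ∨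
      (d i ≠ d (i + 1) ∧ z i = z (i + 1)) := by
    intro i
    by_cases h : d i = d (i + 1)
    · refine Or.inl ⟨h, ?_⟩
      cases ha : d i
      · exact Or.inr (hFF i ha (h ▸ ha))
      · exact Or.inl (hTT i ha (h ▸ ha))
    · exact Or.inr ⟨h, hmix i h⟩
  obtain ⟨m, z', hm, hz0, hzm, hadj⟩ :=
    compress (fun a b => R a b ∨ R b a) d z hall l
  have heven : Even (chg d l) := by
    rw [chg_parity]
    have := hdper 0
    rw [zero_add] at this
    exact this.symm
  have hpos : chg d l ≠ 0 := by
    intro h0
    have hc := chg_zero h0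
    have hconst : ∀ i ≤ l, d i = d 0 := by
      intro i
      induction i with
      | zero => intro _; rfl
      | succ i ih => intro hi; rw [← hc i (by omega)]; exact ih (by omega)
    cases h00 : d 0
    · have hrk : ∀ i ≤ l, rk (z i) + i ≤ rk (z 0) := by
        intro i
        induction i with
        | zero => intro _; omega
        | succ i ih =>
          intro hi
          have a1 := ih (by omega)
          have a2 := hR _ _ (hFF i ((hconst i (by omega)).trans h00)
            ((hconst (i + 1) hi).trans h00))
          omega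
      have := hrk l le_rfl
      rw [hzper] at this
      omega
    · have hrk : ∀ i ≤ l, rk (z 0) + i ≤ rk (z i) := by
        intro i
        induction i with
        | zero => intro _; omega
        | succ i ih =>
          intro hi
          have a1 := ih (by omega)
          have a2 := hR _ _ (hTT i ((hconst i (by omega)).trans h00)
            ((hconst (i + 1) hi).trans h00))
          omega
      have := hrk l le_rfl
      rw [hzper] at this
      omega
  refine ⟨m, z', ?_, ?_, ?_, hadj⟩
  · obtain ⟨c, hc⟩ := heven
    omega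
  · obtain ⟨c, hc⟩ := heven
    obtain ⟨k, hk⟩ := hodd
    exact ⟨k - c, by omega⟩
  · rw [hzm, hzper, hz0]

end Pool.Agent.H91.RO
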